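import Pool.Agent.Helper45.ML.Defs
import Pool.Agent.Helper29.M.LM

/-!
# Project ML, block LM: the local theorem at an arbitrary level, with the grading
-/

set_option autoImplicit false

namespace Pool.Agent.ML

open VC IntermediateField NumberField IsDedekindDomain Pool.Agent.SC
open Pool.Agent.L (Inert L0 MM SamePlace OverV HS FPair frob_pow29 inert_pow29 iter29 stab_pow29
  exists_pow29 exists_cont29 agree29 fix_adjoin29 map_adjoin29 unram29)
open Pool.Agent.LN (Geo Act HasSec GoodCurve IsRam DecPt)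
open Pool.Agent.M (UR NN Moves OverPl inL0 inert_mul29 inert_inv29 uniq29 res29 conj29)
open Pool.Agent.HG (Pr nm Ctx Gd)

noncomputable section

section level

variable {E U K0 : Type} [Field E] [Field U] [Field K0] [Algebra E U] [Algebra K0 U]
  {k : Type} [Field k] [Algebra k E]

theorem conj_pow29 (N : IntermediateField E U) (Φ : (E ≃ₐ[k] E) →* (U ≃+* U))
    (hΦ : ∀ (g : E ≃ₐ[k] E) (x : U), x ∈ N → Φ g x ∈ N)
    (hE : ∀ (g : E ≃ₐ[k] E) (e : E), Φ g (algebraMap E U e) = algebraMap E U (g e))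
    (g : E ≃ₐ[k] E) (b : N ≃ₐ[E] N) (m : ℕ) :
    conj29 N Φ hΦ hE g (b ^ m) = conj29 N Φ hΦ hE g b ^ m := by
  induction m with
  | zero =>
    apply AlgEquiv.ext
    intro x
    change res29 N Φ hΦ g ((res29 N Φ hΦ g).symm x) = x
    exact (res29 N Φ hΦ g).apply_symm_apply x
  | succ m ih =>
    rw [pow_succ (conj29 N Φ hΦ hE g b) m, ← ih]
    apply AlgEquiv.ext
    intro x
    change res29 N Φ hΦ g ((b ^ (m + 1)) ((res29 N Φ hΦ g).symm x)) =
      res29 N Φ hΦ g ((b ^ m) ((res29 N Φ hΦ g).symm (res29 N Φ hΦ g (b ((res29 N Φ hΦ g).symm x)))))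
    rw [RingEquiv.symm_apply_apply, pow_succ, AlgEquiv.mul_apply]

/-- an automorphism which normalises `b` fixes the place below the places fixed by `b` -/
theorem movesL29 {N0 N : IntermediateField E U} (hN0 : IsFunctionField E N0)
    (hN : IsFunctionField E N) (hle : N0 ≤ N) {Φ : (E ≃ₐ[k] E) →* (U ≃+* U)}
    (hΦ : ∀ (g : E ≃ₐ[k] E) (x : U), x ∈ N → Φ g x ∈ N)
    (hE : ∀ (g : E ≃ₐ[k] E) (e : E), Φ g (algebraMap E U e) = algebraMap E U (g e))
    {b b' : N ≃ₐ[E] N} (hK : ∀ Q Q' : Place E N, (∀ x ∈ Q.ring, b x ∈ Q.ring) →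
      (∀ x ∈ Q'.ring, b x ∈ Q'.ring) → SamePlace N0 N Q Q')
    {Q : Place E N} (hQ : ∀ x ∈ Q.ring, b x ∈ Q.ring) (hQb' : ∀ x ∈ Q.ring, b' x ∈ Q.ring)
    (g : E ≃ₐ[k] E) (hg : conj29 N Φ hΦ hE g b' = b) :
    Moves (Φ g) N0 (Place.comap hN0 hN (IntermediateField.inclusion hle) Q)
      (Place.comap hN0 hN (IntermediateField.inclusion hle) Q) := by
  have hcomm : ∀ x : N, (res29 N Φ hΦ g).symm (b x) = b' ((res29 N Φ hΦ g).symm x) := by
    intro x
    rw [RingEquiv.symm_apply_eq]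
    conv_lhs => rw [← hg]
    rfl
  let Q' : Place E N :=
    { ring := Q.ring.comap (res29 N Φ hΦ g).symm.toRingHom
      algebraMap_mem := fun e => by
        change (res29 N Φ hΦ g).symm (algebraMap E N e) ∈ Q.ring
        have h1 : (res29 N Φ hΦ g).symm (algebraMap E N e) = algebraMap E N (g⁻¹ e) :=
          Subtype.ext (hE g⁻¹ e)
        rw [h1]
        exact Q.algebraMap_mem _
      ne_top := by
        intro htop
        apply Q.ne_top
        rw [eq_top_iff]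
        intro x _
        have h1 : res29 N Φ hΦ g x ∈ Q.ring.comap (res29 N Φ hΦ g).symm.toRingHom := by
          rw [htop]
          trivial
        have h2 : (res29 N Φ hΦ g).symm (res29 N Φ hΦ g x) ∈ Q.ring := h1
        rwa [RingEquiv.symm_apply_apply] at h2 }
  have hQ' : ∀ x : N, x ∈ Q'.ring ↔ (res29 N Φ hΦ g).symm x ∈ Q.ring := fun x => Iff.rfl
  have hS := hK Q Q' hQ (by
    intro x hx
    rw [hQ'] at hx ⊢
    rw [hcomm]
    exact hQb' _ hx)
  intro x hx hx'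
  change (⟨x, hle hx⟩ : N) ∈ Q.ring ↔ (⟨Φ g x, hle hx'⟩ : N) ∈ Q.ring
  rw [hS ⟨Φ g x, hle hx'⟩ hx', hQ']
  have h1 : (res29 N Φ hΦ g).symm (⟨Φ g x, hle hx'⟩ : N) = ⟨x, hle hx⟩ := by
    rw [RingEquiv.symm_apply_eq]
    rfl
  rw [h1]

/-- the automorphisms over `L0` which commute with `b` fix the place below the places fixed by `b` -/
theorem fixplace29 {N0 N : IntermediateField E U} {b b₁ : N ≃ₐ[E] N}
    (hK : ∀ Q Q' : Place E N, (∀ x ∈ Q.ring, b x ∈ Q.ring) →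
      (∀ x ∈ Q'.ring, b x ∈ Q'.ring) → SamePlace N0 N Q Q')
    {Q : Place E N} (hQ : ∀ x ∈ Q.ring, b x ∈ Q.ring) (hcomm : b₁ * b = b * b₁) (x : N)
    (hx : (x : U) ∈ N0) : x ∈ Q.ring ↔ b₁ x ∈ Q.ring := by
  have hc : ∀ y : N, b₁ (b y) = b (b₁ y) := fun y => congrArg (fun g : N ≃ₐ[E] N => g y) hcomm
  let Q' : Place E N :=
    { ring := Q.ring.comap b₁.toRingEquiv.toRingHom
      algebraMap_mem := fun e => by
        change b₁ (algebraMap E N e) ∈ Q.ring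
        rw [AlgEquiv.commutes]
        exact Q.algebraMap_mem _
      ne_top := by
        intro htop
        apply Q.ne_top
        rw [eq_top_iff]
        intro x _
        have h1 : b₁.symm x ∈ Q.ring.comap b₁.toRingEquiv.toRingHom := by
          rw [htop]
          trivial
        have h2 : b₁ (b₁.symm x) ∈ Q.ring := h1
        rwa [AlgEquiv.apply_symm_apply] at h2 }
  have hQ' : ∀ x : N, x ∈ Q'.ring ↔ b₁ x ∈ Q.ring := fun x => Iff.rfl
  have hS := hK Q Q' hQ (by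
    intro x hx
    rw [hQ'] at hx ⊢
    rw [hc]
    exact hQ _ hx)
  rw [hS x hx, hQ']

end level

/-- the grading: an automorphism over `L0` which fixes the place `Q` on `M` moves `r ^ (n / d)` only
if `d` does not divide the order of `h` -/
theorem grading29 {E U K0 : Type} [Field E] [IsAlgClosed E] [CharZero E] [Field U] [Field K0]
    [Algebra E U] [Algebra K0 U] {n : ℕ} (hn : 0 < n) {h : K0} {r : U}
    (hr : r ^ n = algebraMap K0 U h) (hr0 : r ≠ 0)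
    (hL : IsFunctionField E (L0 E K0 (U := U))) {N : IntermediateField E U}
    (hN : IsFunctionField E N) (hLN : L0 E K0 (U := U) ≤ N) (hMN : MM E K0 r ≤ N)
    {b : N ≃ₐ[E] N} (hbK : ∀ x : N, (x : U) ∈ L0 E K0 (U := U) → b x = x) {ζ : E}
    (hbr : ∀ x : N, (x : U) = r → b x = algebraMap E N ζ * x)
    {Q : Place E N} (hQ : ∀ x : N, (x : U) ∈ MM E K0 r → (x ∈ Q.ring ↔ b x ∈ Q.ring)) {d : ℕ}
    (hd : d ∣ n)
    (hord : (d : ℤ) ∣ ord (Place.comap hL hN (IntermediateField.inclusion hLN) Q).ring (inL0 h)) :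
    ζ ^ (n / d) = 1 := by
  obtain ⟨e, he⟩ := hd
  have hd0 : 0 < d := Nat.pos_of_ne_zero fun h0 => by
    rw [h0, zero_mul] at he
    omega
  have hnd : n / d = e := by rw [he, Nat.mul_div_cancel_left _ hd0]
  rw [hnd]
  obtain ⟨P, hP⟩ : ∃ P, P = Place.comap hL hN (IntermediateField.inclusion hLN) Q := ⟨_, rfl⟩
  rw [← hP] at hord
  have hPmem : ∀ y : L0 E K0 (U := U), y ∈ P.ring ↔ IntermediateField.inclusion hLN y ∈ Q.ring := by
    intro y
    rw [hP]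
    rfl
  have hrM : r ∈ MM E K0 r := subset_adjoin _ _ (Or.inr rfl)
  have hLM : ∀ x : U, x ∈ L0 E K0 (U := U) → x ∈ MM E K0 r := fun x hx =>
    (adjoin.mono E _ _ Set.subset_union_left : L0 E K0 (U := U) ≤ MM E K0 r) hx
  obtain ⟨m, hm⟩ := hord
  obtain ⟨hh, hhdef⟩ : ∃ hh : L0 E K0 (U := U), hh = inL0 h := ⟨_, rfl⟩
  have hhU : ((hh : L0 E K0 (U := U)) : U) = r ^ n := by
    rw [hhdef, hr]
    rfl
  rw [← hhdef] at hm
  have hh0 : hh ≠ 0 := by
    intro h0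
    rw [h0, ZeroMemClass.coe_zero] at hhU
    exact hr0 ((pow_eq_zero_iff hn.ne').1 hhU.symm)
  obtain ⟨π, hπ0, hπ⟩ := FF.exists_uniformizer hL P
  obtain ⟨z, hz⟩ : ∃ z, z = π ^ m := ⟨_, rfl⟩
  have hz0 : z ≠ 0 := by
    rw [hz]
    exact zpow_ne_zero _ hπ0
  obtain ⟨u, hu⟩ : ∃ u, u = hh / z ^ (d : ℤ) := ⟨_, rfl⟩
  have hu0 : u ≠ 0 := by
    rw [hu]
    exact div_ne_zero hh0 (zpow_ne_zero _ hz0)
  have hord : ord P.ring u = 0 := by
    rw [hu, FF.ord_div hL P hh0 (zpow_ne_zero _ hz0), FF.ord_zpow hL P hz0, hz,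
      FF.ord_zpow hL P hπ0, hπ, hm]
    ring
  obtain ⟨hu1, hu2⟩ := G6.mem_of_ord_zero hL hu0 hord
  rw [hPmem] at hu1 hu2
  obtain ⟨rN, hrN⟩ : ∃ rN : N, (rN : U) = r := ⟨⟨r, hMN hrM⟩, rfl⟩
  obtain ⟨zN, hzN⟩ : ∃ zN : N, zN = IntermediateField.inclusion hLN z := ⟨_, rfl⟩
  obtain ⟨uN, huN⟩ : ∃ uN : N, uN = IntermediateField.inclusion hLN u := ⟨_, rfl⟩
  rw [← huN] at hu1
  rw [map_inv₀, ← huN] at hu2
  have huN0 : uN ≠ 0 := by
    rw [huN]
    exact (map_ne_zero _).2 hu0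
  have hzU : ((zN : N) : U) ∈ L0 E K0 (U := U) := by
    rw [hzN]
    exact z.2
  obtain ⟨v, hv⟩ : ∃ v : N, v = rN ^ e / zN := ⟨_, rfl⟩
  have hx2 : v ^ d = uN := by
    have h1 : uN = IntermediateField.inclusion hLN hh / zN ^ d := by
      rw [huN, hu, map_div₀, hzN, ← map_pow]
      norm_cast
    have h2 : rN ^ n = IntermediateField.inclusion hLN hh := by
      apply Subtype.ext
      change ((rN ^ n : N) : U) = (hh : U)
      rw [hhU, ← hrN]
      rfl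
    rw [hv, div_pow, ← pow_mul, mul_comm e d, ← he, h2, h1]
  have hvu : Q.ring.valuation uN = 1 := by
    apply le_antisymm
    · rw [ValuationSubring.valuation_le_one_iff]
      exact hu1
    · have h2 : Q.ring.valuation uN⁻¹ ≤ 1 := by
        rw [ValuationSubring.valuation_le_one_iff]
        exact hu2
      have h3 : Q.ring.valuation uN ≠ 0 := by
        rw [Valuation.ne_zero_iff]
        exact huN0
      rw [map_inv₀] at h2
      exact (inv_le_one₀ (zero_lt_iff.2 h3)).1 h2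
  have hvx : Q.ring.valuation v = 1 := by
    rw [← hx2, map_pow] at hvu
    exact (pow_eq_one_iff_of_nonneg zero_le hd0.ne').1 hvu
  have hbz : b zN = zN := hbK zN hzU
  have hbv : b v = algebraMap E N (ζ ^ e) * v := by
    rw [hv, map_div₀, map_pow, hbr rN hrN, hbz, mul_pow, map_pow]
    ring
  have hvM : ((v : N) : U) ∈ MM E K0 r := by
    have h1 : ((v : N) : U) = r ^ e / (zN : U) := by
      rw [hv, ← hrN]
      rfl
    rw [h1]
    exact (MM E K0 r).div_mem (pow_mem hrM e) (hLM _ hzU)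
  by_contra hne
  obtain ⟨a, ha⟩ := FF.exists_residue hN Q ((Q.ring.valuation_le_one_iff v).1 hvx.le)
  have haM : ((v - algebraMap E N a : N) : U) ∈ MM E K0 r := by
    change (v : U) - algebraMap E U a ∈ _
    exact (MM E K0 r).sub_mem hvM ((MM E K0 r).algebraMap_mem a)
  have hnon : ∀ x : N, (x : U) ∈ MM E K0 r → x ∈ Q.ring.nonunits → b x ∈ Q.ring.nonunits := by
    intro x hx hxn
    rw [ValuationSubring.mem_nonunits_iff_or] at hxn ⊢
    rcases hxn with h0 | h0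
    · left
      rw [h0, map_zero]
    · right
      rw [← map_inv₀]
      intro h1
      apply h0
      rw [hQ]
      · exact h1
      · exact (MM E K0 r).inv_mem hx
  have h1 := hnon _ haM ha
  rw [map_sub, hbv, AlgEquiv.commutes] at h1
  have h2 : algebraMap E N (ζ ^ e) * (v - algebraMap E N a) ∈ Q.ring.nonunits :=
    FF.mul_mem_nonunits (Q.algebraMap_mem _) ha
  have h3 : algebraMap E N ((ζ ^ e - 1) * a) ∈ Q.ring.nonunits := by
    have h4 : algebraMap E N ((ζ ^ e - 1) * a) = (algebraMap E N (ζ ^ e) * v - algebraMap E N a) -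
        algebraMap E N (ζ ^ e) * (v - algebraMap E N a) := by
      rw [map_mul, map_sub, map_one]
      ring
    rw [h4, ValuationSubring.mem_nonunits_iff]
    rw [ValuationSubring.mem_nonunits_iff] at h1 h2
    exact Valuation.map_sub_lt _ h1 h2
  have h4 : (ζ ^ e - 1) * a = 0 := by
    by_contra hne
    rw [ValuationSubring.mem_nonunits_iff_or] at h3
    rcases h3 with h3 | h3
    · exact hne ((map_eq_zero _).1 h3)
    · apply h3
      rw [← map_inv₀]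
      exact Q.algebraMap_mem _
  have h5 : a = 0 := (mul_eq_zero.1 h4).resolve_left (sub_ne_zero.2 hne)
  rw [h5, map_zero, sub_zero, ValuationSubring.mem_nonunits_iff, hvx] at ha
  exact lt_irrefl _ ha

section lmmain

variable {k E : Type} [Field k] [Field E] [Algebra k E]

/-- the inertia group -/
def In29 (O : ValuationSubring E) : Subgroup (E ≃ₐ[k] E) where
  carrier := {τ | Inert O τ.toRingEquiv}
  mul_mem' := fun {a b} ha hb => inert_mul29 ha hb
  one_mem' := by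
    refine ⟨fun z => Iff.rfl, fun z hz => ?_⟩
    change O.valuation ((1 : E ≃ₐ[k] E) z - z) < 1
    rw [AlgEquiv.one_apply, sub_self, map_zero]
    exact zero_lt_one
  inv_mem' := fun {a} ha => inert_inv29 ha

theorem mem_In29 {O : ValuationSubring E} {τ : E ≃ₐ[k] E} :
    τ ∈ In29 (k := k) O ↔ Inert O τ.toRingEquiv := Iff.rfl

/-- a generator of the tame inertia modulo the elements which fix `d` -/
theorem exists_gen29 {O : ValuationSubring E} {n : ℕ} (hn : 0 < n) {d : E} (hd0 : d ≠ 0) {c : k}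
    (hd : d ^ n = algebraMap k E c)
    (hmu : ∀ τ : E ≃ₐ[k] E, Inert O τ.toRingEquiv → ∀ ζ : E, ζ ^ n = 1 → τ ζ = ζ) :
    ∃ (τ₁ : E ≃ₐ[k] E) (ζ : E), Inert O τ₁.toRingEquiv ∧ ζ ^ n = 1 ∧ ζ * τ₁ d = d ∧
      ∀ τ : E ≃ₐ[k] E, Inert O τ.toRingEquiv → ∃ i : ℕ, ζ ^ i * τ d = d := by
  classical
  have hτ0 : ∀ τ : E ≃ₐ[k] E, τ d ≠ 0 := fun τ => (map_ne_zero τ).2 hd0
  have hpow : ∀ τ : E ≃ₐ[k] E, (d / τ d) ^ n = 1 := by
    intro τ
    have h1 : (τ d) ^ n = d ^ n := by rw [← map_pow, hd, AlgEquiv.commutes]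
    rw [div_pow, h1, div_self (pow_ne_zero _ hd0)]
  let χ : In29 (k := k) O →* Eˣ :=
    { toFun := fun τ => Units.mk0 (d / (τ : E ≃ₐ[k] E) d) (div_ne_zero hd0 (hτ0 _))
      map_one' := by
        apply Units.ext
        change d / (1 : E ≃ₐ[k] E) d = 1
        rw [AlgEquiv.one_apply, div_self hd0]
      map_mul' := by
        intro a b
        apply Units.ext
        change d / ((a : E ≃ₐ[k] E) * (b : E ≃ₐ[k] E)) d = d / (a : E ≃ₐ[k] E) d * (d / (b : E ≃ₐ[k] E) d)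
        have h1 : (a : E ≃ₐ[k] E) (d / (b : E ≃ₐ[k] E) d) = d / (b : E ≃ₐ[k] E) d :=
          hmu a a.2 _ (hpow b)
        rw [map_div₀] at h1
        rw [← h1, AlgEquiv.mul_apply]
        have h2 := hτ0 (a : E ≃ₐ[k] E)
        field_simp }
  have hχ : ∀ τ : In29 (k := k) O, ((χ τ : Eˣ) : E) = d / (τ : E ≃ₐ[k] E) d := fun _ => rfl
  have hle : χ.range ≤ rootsOfUnity n E := by
    rintro _ ⟨τ, rfl⟩
    rw [mem_rootsOfUnity]
    apply Units.ext
    rw [Units.val_pow_eq_pow_val, hχ, hpow]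
    rfl
  have hne : NeZero n := ⟨hn.ne'⟩
  have hfin : Finite χ.range := Finite.of_injective _ (Subgroup.inclusion_injective hle)
  obtain ⟨g, hg⟩ := IsCyclic.exists_generator (α := χ.range)
  obtain ⟨τ₁, hτ₁⟩ := g.2
  refine ⟨τ₁, d / (τ₁ : E ≃ₐ[k] E) d, τ₁.2, hpow _, div_mul_cancel₀ _ (hτ0 _), fun τ hτ => ?_⟩
  have h1 := hg ⟨χ ⟨τ, hτ⟩, ⟨_, rfl⟩⟩
  rw [← (isOfFinOrder_of_finite g).mem_powers_iff_mem_zpowers] at h1
  obtain ⟨i, hi⟩ := h1
  refine ⟨i, ?_⟩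
  have h2 := congrArg (fun y : χ.range => ((y : Eˣ) : E)) hi
  simp only [SubgroupClass.coe_pow, Units.val_pow_eq_pow_val] at h2
  rw [← hτ₁, hχ, hχ] at h2
  rw [h2, div_mul_cancel₀ _ (hτ0 _)]

end lmmain

/-- **BLOCK LM.** -/
theorem lm (hK2 : L.StmtK2) (hK3 : LN.StmtK3) (hK4 : StmtK4M) (hAR : L.StmtAR) : StmtLM := by
  classical
  intro k K0 E U _ _ _ _ _ _ _ _ _ _ _ _ n h r hn2 geo Z
  have hn : 0 < n := by omega
  have hcl : IsAlgClosed E := geo.clE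
  have halg : Algebra.IsAlgebraic k E := geo.algE
  have hch : CharZero E := charZero_of_injective_algebraMap (algebraMap k E).injective
  -- the level `N0`
  obtain ⟨Z0, C0, N0, hZZ0, hrZ0, hN0, hff0, -, hst0, -⟩ := hK3 k K0 E U n h r hn2 geo Z
  have hZ0N0 : ∀ z ∈ Z0, z ∈ N0 := fun z hz => by
    rw [hN0]
    exact subset_adjoin _ _ (Or.inr hz)
  have hMN0 : MM E K0 r ≤ N0 := by
    rw [hN0]
    refine adjoin.mono E _ _ (Set.union_subset_union_right _ ?_)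
    rintro _ rfl
    exact hrZ0
  have hN0st : ∀ T : U ≃+* U, (∀ x : K0, T (algebraMap K0 U x) = algebraMap K0 U x) →
      (∀ e : E, ∃ e' : E, T (algebraMap E U e) = algebraMap E U e') → ∀ z ∈ N0, T z ∈ N0 := by
    intro T hT hTE z hz
    rw [hN0] at hz ⊢
    refine map_adjoin29 hTE ?_ hz
    rintro y (⟨y, rfl⟩ | hy)
    · rw [hT]
      exact subset_adjoin _ _ (Or.inl ⟨y, rfl⟩)
    · exact subset_adjoin _ _ (Or.inr (hst0 T hT y hy))
  -- the level `N`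
  have hK4' : ∀ ℓ : ℕ, ∃ Z : Finset U, ℓ.Prime → ∀ N : IntermediateField E U, N0 ≤ N →
      (∀ z ∈ Z, z ∈ N) → IsFunctionField E N → ∀ b : N ≃ₐ[E] N,
      (∀ x : N, (x : U) ∈ L0 E K0 (U := U) → b x = x) → b ^ ℓ = 1 →
      (∀ x : N, (x : U) = r → b x ≠ x) →
      ∀ Q Q' : Place E N, (∀ x ∈ Q.ring, b x ∈ Q.ring) → (∀ x ∈ Q'.ring, b x ∈ Q'.ring) →
      SamePlace N0 N Q Q' := by
    intro ℓ
    by_cases hℓ : ℓ.Prime
    · obtain ⟨Z4, hZ4⟩ := hK4 k K0 E U n h r hn2 geo ℓ hℓ N0 hMN0 hff0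
      exact ⟨Z4, fun _ => hZ4⟩
    · exact ⟨∅, fun h1 => absurd h1 hℓ⟩
  choose Z4 hZ4 using hK4'
  obtain ⟨Z', C3, N, hZZ', hrZ', hN, hff, hfin, hst, hag⟩ :=
    hK3 k K0 E U n h r hn2 geo (Z0 ∪ n.primeFactors.biUnion Z4)
  have hZ0Z' : ∀ z ∈ Z0, z ∈ Z' := fun z hz => hZZ' (Finset.mem_union_left _ hz)
  let HH : Subgroup (N ≃ₐ[E] N) := HS K0 N
  have hHfin : Finite HH := hfin
  have hKN : ∀ x : K0, algebraMap K0 U x ∈ N := fun x => by
    rw [hN]
    exact subset_adjoin _ _ (Or.inl ⟨x, rfl⟩)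
  have hZN : ∀ z ∈ Z', z ∈ N := fun z hz => by
    rw [hN]
    exact subset_adjoin _ _ (Or.inr hz)
  have hN0N : N0 ≤ N := by
    rw [hN0, hN]
    exact adjoin.mono E _ _ (Set.union_subset_union_right _ fun z hz => hZ0Z' z hz)
  have hMN : MM E K0 r ≤ N := hMN0.trans hN0N
  have hr0 : r ≠ 0 := by
    rintro rfl
    refine geo.rnot 1 one_pos (by omega) ?_
    rw [pow_one]
    exact zero_mem _
  -- the data of block K2
  have hK2' : ∀ b : N ≃ₐ[E] N, ∃ (Z : Finset N) (S : Finset E), (∀ s ∈ S, s ≠ 0) ∧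
      ((∃ ℓ : ℕ, ℓ.Prime ∧ b ^ ℓ = 1) → b ≠ 1 → (∀ P : Place E N, ∃ x ∈ P.ring, b x ∉ P.ring) →
      ∀ (O : ValuationSubring E) (σ τ : E ≃+* E) (p f : ℕ) (h T : U ≃+* U),
      FPair O σ τ p f h T → (∀ s ∈ S, O.valuation s = 1) → (∀ z ∈ Z, h z = z) →
      (∀ z ∈ Z, T z = b z) → False) := by
    intro b
    by_cases hb : (∃ ℓ : ℕ, ℓ.Prime ∧ b ^ ℓ = 1) ∧ b ≠ 1 ∧
        ∀ P : Place E N, ∃ x ∈ P.ring, b x ∉ P.ring
    · obtain ⟨⟨ℓ, hℓ, h1⟩, h2, h3⟩ := hb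
      obtain ⟨Z, S, h4, h5⟩ := hK2 E U (MM E K0 r) geo.cover N hff b ℓ hℓ h1 h2 h3
      exact ⟨Z, S, h4, fun _ _ _ => h5⟩
    · exact ⟨∅, ∅, by simp, fun h1 h2 h3 => absurd ⟨h1, h2, h3⟩ hb⟩
  choose Zb Sb hSb0 hKb using hK2'
  choose Cz hCz using fun z : N => agree29 (K0 := K0) hN z
  have hHft : Fintype HH := Fintype.ofFinite HH
  let ZZ : Finset N := Finset.univ.biUnion fun b : HH => Zb b.1
  obtain ⟨Z2, -, -, hZ2, -, -, -, -, hst2, -⟩ :=
    hK3 k K0 E U n h r hn2 geo (ZZ.image (Subtype.val : N → U))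
  let Ctot : Finset E := (C3 ∪ ZZ.biUnion Cz) ∪ Polynomial.nthRootsFinset n (1 : E)
  let Stot : Finset E := insert (Nat.card HH : E) (Finset.univ.biUnion fun b : HH => Sb b.1)
  have hcard0 : (Nat.card HH : E) ≠ 0 := Nat.cast_ne_zero.2 Nat.card_pos.ne'
  have hStot : ∀ s ∈ Stot, s ≠ 0 := by
    intro s hs
    rcases Finset.mem_insert.1 hs with rfl | hs
    · exact hcard0
    · obtain ⟨b, -, hb⟩ := Finset.mem_biUnion.1 hs
      exact hSb0 b.1 s hb
  obtain ⟨Bad, hBad, hgood⟩ := hAR k E Stot Ctot hStot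
  refine ⟨N0, hMN0, hff0, fun z hz => hZ0N0 z (hZZ0 hz), hN0st, Bad, hBad, ?_⟩
  intro v hv c hc Φ hΦ O F p f hdec
  obtain ⟨hS, hC⟩ := hgood v hv O hdec.above
  have hst' : ∀ (g : E ≃ₐ[k] E), ∀ z ∈ Z', Φ g z ∈ Z' := fun g => hst (Φ g) (hΦ.fixK g)
  have hΦN : ∀ (g : E ≃ₐ[k] E) (x : U), x ∈ N → Φ g x ∈ N := by
    intro g x hx
    rw [hN] at hx ⊢
    refine map_adjoin29 (fun e => ⟨g e, hΦ.const g e⟩) ?_ hx
    rintro y (⟨y, rfl⟩ | hy)
    · rw [hΦ.fixK]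
      exact subset_adjoin _ _ (Or.inl ⟨y, rfl⟩)
    · exact subset_adjoin _ _ (Or.inr (hst' g y hy))
  have hΦL : ∀ (g : E ≃ₐ[k] E) (x : U), x ∈ L0 E K0 (U := U) → Φ g x ∈ L0 E K0 (U := U) := by
    intro g x hx
    refine map_adjoin29 (fun e => ⟨g e, hΦ.const g e⟩) ?_ hx
    rintro y ⟨y, rfl⟩
    rw [hΦ.fixK]
    exact subset_adjoin _ _ ⟨y, rfl⟩
  have hconj : ∀ (g : E ≃ₐ[k] E) (b : N ≃ₐ[E] N), b ∈ HH → conj29 N Φ hΦN hΦ.const g b ∈ HH := by
    intro g b hb x hx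
    change res29 N Φ hΦN g (b ((res29 N Φ hΦN g).symm x)) = x
    have h1 : (((res29 N Φ hΦN g).symm x : N) : U) = Φ g⁻¹ x := rfl
    rw [hb _ (by rw [h1]; exact hΦL g⁻¹ _ hx)]
    exact (res29 N Φ hΦN g).apply_symm_apply x
  -- the action of an inertia element
  have hb : ∀ τ : E ≃ₐ[k] E, Inert O τ.toRingEquiv → ∃ b0 ∈ HH,
      (∀ z : N, (z : U) ∈ Z' → Φ τ z = b0 z) ∧
      (∀ (n : ℕ) (z : N), (z : U) ∈ Z' → (Φ τ ^ n) (z : U) = ((b0 ^ n) z : N)) ∧
      ∀ n ℓ : ℕ, ℓ.Prime → (b0 ^ n) ^ ℓ = 1 → b0 ^ n ≠ 1 →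
        ∃ P : Place E N, ∀ x ∈ P.ring, (b0 ^ n) x ∈ P.ring := by
    intro τ hτ
    have hτC := hC τ hτ
    obtain ⟨b0, hb0K, hb0⟩ := hag (Φ τ) (hΦ.fixK τ) (fun e => ⟨τ e, hΦ.const τ e⟩) (fun e he => by
      rw [hΦ.const, hτC e (Finset.mem_union_left _ (Finset.mem_union_left _ he))])
    have hb0H : b0 ∈ HH := hb0K
    have hpow : ∀ (n : ℕ) (z : N), (z : U) ∈ Z' → (Φ τ ^ n) (z : U) = ((b0 ^ n) z : N) := by
      intro n
      induction n with
      | zero => intro z _; rfl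
      | succ n ih =>
        intro z hz
        have h1 : (Φ τ ^ (n + 1)) (z : U) = (Φ τ ^ n) (Φ τ (z : U)) := by
          rw [pow_succ]
          rfl
        have h2 := hst' τ _ hz
        rw [hb0 z hz] at h2
        rw [h1, hb0 z hz, ih _ h2, pow_succ, AlgEquiv.mul_apply]
    refine ⟨b0, hb0H, hb0, hpow, ?_⟩
    intro n ℓ hℓ h1 h2
    by_contra hcon
    push Not at hcon
    have hbH : b0 ^ n ∈ HH := HH.pow_mem hb0H n
    have hΦF : ∀ z ∈ Z2, Φ F z ∈ Z2 := hst2 (Φ F) (hΦ.fixK F)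
    obtain ⟨m, hm, hm1⟩ := exists_pow29 (Φ F) (Φ F).injective hΦF
    have hm2 : ∀ z ∈ Z2, Φ (F ^ m) z = z := by
      intro z hz
      rw [map_pow]
      have h3 : ∀ (i : ℕ) (y : U), ((Φ F) ^ i) y = (Φ F : U → U)^[i] y := by
        intro i
        induction i with
        | zero => intro y; rfl
        | succ i ih =>
          intro y
          rw [pow_succ, Function.iterate_succ_apply, ← ih]
          rfl
      rw [h3]
      exact hm1 z hz
    refine hKb (b0 ^ n) ⟨ℓ, hℓ, h1⟩ h2 hcon O (F ^ m).toRingEquiv (τ ^ n).toRingEquiv p (f * m)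
      (Φ (F ^ m)) (Φ (τ ^ n)) ?_ ?_ ?_ ?_
    · refine ⟨frob_pow29 hdec.frob hm, inert_pow29 hτ n, fun c => hΦ.const _ c,
        fun c => hΦ.const _ c, ?_⟩
      intro Z m' hm'
      obtain ⟨L, hL1, hL2⟩ := exists_cont29 hΦ.cont Z
      obtain ⟨a, j, ha, hj⟩ := hdec.tame (F ^ m) (τ ^ n)
        (fun z => stab_pow29 (σ := F) hdec.frob.stable m z) (inert_pow29 hτ n) L hL1 m' hm'
      refine ⟨a, j, ha, fun z hz => ?_⟩
      have h3 := hL2 _ hj z hz
      rw [map_pow, map_mul, map_inv, map_pow, map_mul, map_mul, map_inv] at h3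
      exact h3
    · intro s hs
      exact hS s (Finset.mem_insert_of_mem (Finset.mem_biUnion.2 ⟨⟨_, hbH⟩, Finset.mem_univ _, hs⟩))
    · intro z hz
      refine hm2 _ (hZ2 (Finset.mem_image_of_mem _ ?_))
      exact Finset.mem_biUnion.2 ⟨⟨_, hbH⟩, Finset.mem_univ _, hz⟩
    · intro z hz
      have hzZ : z ∈ ZZ := Finset.mem_biUnion.2 ⟨⟨_, hbH⟩, Finset.mem_univ _, hz⟩
      refine hCz z (Φ (τ ^ n)) (b0 ^ n) (hΦ.fixK _) hbH ?_ ?_
      · intro x hx
        rw [map_pow]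
        exact hpow n x hx
      · intro e he
        rw [hΦ.const]
        have h4 : τ e = e := hτC e (Finset.mem_union_left _ (Finset.mem_union_right _
          (Finset.mem_biUnion.2 ⟨z, hzZ, he⟩)))
        have h5 : (τ ^ n) e = e := by
          rw [iter29]
          exact Function.iterate_fixed h4 n
        rw [h5]
  -- powers which are trivial on `M` are trivial
  have htriv : ∀ b0 ∈ HH, (∀ n ℓ : ℕ, ℓ.Prime → (b0 ^ n) ^ ℓ = 1 → b0 ^ n ≠ 1 →
      ∃ P : Place E N, ∀ x ∈ P.ring, (b0 ^ n) x ∈ P.ring) → ∀ m : ℕ,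
      (∀ x : N, (x : U) ∈ MM E K0 r → (b0 ^ m) x = x) → b0 ^ m = 1 := by
    intro b0 hb0H hpr m hsq
    by_contra hne
    have hfo : 0 < orderOf (⟨b0 ^ m, HH.pow_mem hb0H m⟩ : HH) := orderOf_pos _
    obtain ⟨n, hn⟩ : ∃ n, n = orderOf (⟨b0 ^ m, HH.pow_mem hb0H m⟩ : HH) := ⟨_, rfl⟩
    rw [← hn] at hfo
    have hn' : n = orderOf (b0 ^ m) := by
      rw [hn]
      exact (Subgroup.orderOf_coe _).symm
    have hn1 : n ≠ 1 := by
      rw [hn']
      intro h1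
      exact hne (orderOf_eq_one_iff.1 h1)
    obtain ⟨ℓ, hℓ, i, hi⟩ := Nat.exists_prime_and_dvd hn1
    have hi0 : 0 < i := by
      rcases Nat.eq_zero_or_pos i with h1 | h1
      · rw [h1, mul_zero] at hi
        omega
      · exact h1
    have h1 : (b0 ^ (m * i)) ^ ℓ = 1 := by
      rw [← pow_mul, mul_assoc, mul_comm i ℓ, ← hi, pow_mul, hn', pow_orderOf_eq_one]
    have h2 : b0 ^ (m * i) ≠ 1 := by
      rw [pow_mul]
      refine pow_ne_one_of_lt_orderOf hi0.ne' ?_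
      rw [← hn', hi]
      have := hℓ.two_le
      nlinarith
    obtain ⟨P, hP⟩ := hpr (m * i) ℓ hℓ h1 h2
    apply h2
    refine unram29 geo.cover hMN hff hℓ h1 ?_ hP
    intro x hx
    rw [pow_mul]
    have h3 := hsq x hx
    clear hi hi0 h1 h2 hP
    induction i with
    | zero => rfl
    | succ i ih => rw [pow_succ, AlgEquiv.mul_apply, h3, ih]
  -- inertia without effect on the root of `c`
  obtain ⟨d, hd, htw⟩ := hΦ.tw
  have hd0 : d ≠ 0 := by
    rintro rfl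
    rw [zero_pow hn.ne'] at hd
    exact hc ((map_eq_zero _).1 hd.symm)
  have hd0' : algebraMap E U d ≠ 0 := (map_ne_zero _).2 hd0
  have hfirst : ∀ τ : E ≃ₐ[k] E, Inert O τ.toRingEquiv → τ d = d → ∀ z ∈ Z', Φ τ z = z := by
    intro τ hτ hτd
    obtain ⟨b0, hb0H, hb0, -, hpr⟩ := hb τ hτ
    have hTr : Φ τ r = r := by
      have h1 := htw τ
      rw [hτd] at h1
      apply mul_right_cancel₀ hd0'
      linear_combination h1
    have h1 : b0 ^ 1 = 1 := by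
      refine htriv b0 hb0H hpr 1 ?_
      rw [pow_one]
      refine fun x hx => fix_adjoin29 (b := b0) hMN ?_ x hx
      rintro x (hx | hx)
      · exact hb0H x (subset_adjoin _ _ hx)
      · have h1 : (x : U) = r := hx
        apply Subtype.ext
        rw [← hb0 x (by rw [h1]; exact hrZ'), h1, hTr]
    intro z hz
    rw [pow_one] at h1
    have h2 := hb0 ⟨z, hZN z hz⟩ hz
    rw [h1] at h2
    exact h2
  refine ⟨fun τ hτ hτd z hz => hfirst τ hτ (hτd d hd) z (hZ0Z' z (hZZ0 hz)), fun hram => ?_⟩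
  -- a generator of the tame inertia
  have hmu : ∀ τ : E ≃ₐ[k] E, Inert O τ.toRingEquiv → ∀ ζ : E, ζ ^ n = 1 → τ ζ = ζ :=
    fun τ hτ ζ hζ => hC τ hτ ζ (Finset.mem_union_right _
      ((Polynomial.mem_nthRootsFinset hn (1 : E)).2 hζ))
  obtain ⟨τ₁, ζ, hτ₁, hζn, hζd, hgen⟩ := exists_gen29 (O := O) hn hd0 hd hmu
  obtain ⟨b1, hb1H, hb1, hpow1, hprime1⟩ := hb τ₁ hτ₁
  have hτd0 : τ₁ d ≠ 0 := (map_ne_zero τ₁).2 hd0
  have hTr1 : Φ τ₁ r = algebraMap E U ζ * r := by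
    have h1 := htw τ₁
    have h2 : algebraMap E U (τ₁ d) ≠ 0 := (map_ne_zero _).2 hτd0
    have h3 : algebraMap E U d = algebraMap E U ζ * algebraMap E U (τ₁ d) := by
      rw [← map_mul, hζd]
    apply mul_right_cancel₀ h2
    rw [h1, h3]
    ring
  have hb1r : ∀ x : N, (x : U) = r → b1 x = algebraMap E N ζ * x := by
    intro x hx
    apply Subtype.ext
    rw [← hb1 x (by rw [hx]; exact hrZ'), hx, hTr1, ← hx]
    rfl
  have hb1pr : ∀ (m : ℕ) (x : N), (x : U) = r → (b1 ^ m) x = algebraMap E N (ζ ^ m) * x := by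
    intro m
    induction m with
    | zero => intro x _; rw [pow_zero, pow_zero, map_one, one_mul]; rfl
    | succ m ih =>
      intro x hx
      rw [pow_succ b1, AlgEquiv.mul_apply, hb1r x hx, map_mul, AlgEquiv.commutes, ih x hx, pow_succ,
        map_mul]
      ring
  have hb1M : ∀ m : ℕ, ζ ^ m = 1 → b1 ^ m = 1 := by
    intro m hm
    refine htriv b1 hb1H hprime1 m ?_
    refine fun x hx => fix_adjoin29 (b := b1 ^ m) hMN ?_ x hx
    rintro x (hx | hx)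
    · exact HH.pow_mem hb1H m x (subset_adjoin _ _ hx)
    · rw [hb1pr m x hx, hm, map_one, one_mul]
  have hb1M' : ∀ m : ℕ, b1 ^ m = 1 → ζ ^ m = 1 := by
    intro m hm
    have h1 := hb1pr m ⟨r, hZN r hrZ'⟩ rfl
    rw [hm] at h1
    have h2 : r = algebraMap E U (ζ ^ m) * r := congrArg Subtype.val h1
    have h3 : algebraMap E U (ζ ^ m) = 1 := by
      apply mul_right_cancel₀ hr0
      rw [one_mul]
      exact h2.symm
    exact (algebraMap E U).injective (h3.trans (map_one _).symm)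
  have hb1n : b1 ^ n = 1 := hb1M n hζn
  have hζ1 : ζ ≠ 1 := by
    intro h1
    obtain ⟨τ₀, hτ₀, hτ₀d⟩ := hdec.ram n c hn hram d hd
    obtain ⟨i, hi⟩ := hgen τ₀ hτ₀
    rw [h1, one_pow, one_mul] at hi
    exact hτ₀d hi
  have hb11 : b1 ≠ 1 := by
    intro h1
    apply hζ1
    have h2 := hb1M' 1 (by rw [pow_one]; exact h1)
    rwa [pow_one] at h2
  -- the action of all inertia elements
  have hall : ∀ τ : E ≃ₐ[k] E, Inert O τ.toRingEquiv → ∃ i : ℕ, ζ ^ i * τ d = d ∧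
      ∀ x : N, (x : U) ∈ Z' → Φ τ x = (b1 ^ i) x := by
    intro τ hτ
    obtain ⟨i, hi⟩ := hgen τ hτ
    refine ⟨i, hi, ?_⟩
    have h1 : Inert O (τ₁ ^ i).toRingEquiv := inert_pow29 hτ₁ i
    have h2 : Inert O (τ * (τ₁ ^ i)⁻¹).toRingEquiv := inert_mul29 hτ (inert_inv29 h1)
    have hp : ∀ m : ℕ, ζ ^ m * (τ₁ ^ m) d = d := by
      intro m
      induction m with
      | zero => rw [pow_zero, pow_zero, one_mul]; rfl
      | succ m ih =>
        rw [pow_succ' τ₁, AlgEquiv.mul_apply]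
        have h3 := congrArg τ₁ ih
        rw [map_mul, hmu τ₁ hτ₁ (ζ ^ m) (by rw [← pow_mul, mul_comm, pow_mul, hζn, one_pow])] at h3
        rw [pow_succ', mul_assoc, h3, hζd]
    have h3 : (τ * (τ₁ ^ i)⁻¹) d = d := by
      have hτζ : τ (ζ ^ i) = ζ ^ i :=
        hmu τ hτ _ (by rw [← pow_mul, mul_comm, pow_mul, hζn, one_pow])
      have h4 : (τ₁ ^ i)⁻¹ d = ζ ^ i * d := by
        have h5 : (τ₁ ^ i) (ζ ^ i * d) = d := by
          rw [map_mul, hmu _ h1 _ (by rw [← pow_mul, mul_comm, pow_mul, hζn, one_pow])]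
          exact hp i
        calc (τ₁ ^ i)⁻¹ d = (τ₁ ^ i)⁻¹ ((τ₁ ^ i) (ζ ^ i * d)) := by rw [h5]
          _ = ζ ^ i * d := (τ₁ ^ i).symm_apply_apply _
      rw [AlgEquiv.mul_apply, h4, map_mul, hτζ, hi]
    intro x hx
    have h4 := hfirst _ h2 h3 _ (hst' (τ₁ ^ i) x hx)
    rw [map_mul, map_inv] at h4
    have h5 : (Φ τ * (Φ (τ₁ ^ i))⁻¹) (Φ (τ₁ ^ i) x) = Φ τ x := by
      change Φ τ ((Φ (τ₁ ^ i))⁻¹ (Φ (τ₁ ^ i) x)) = _
      congr 1
      exact (Φ (τ₁ ^ i)).symm_apply_apply (x : U)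
    rw [← h5, h4, map_pow]
    exact hpow1 i x hx
  -- the element of prime order
  obtain ⟨o, ho⟩ : ∃ o, o = orderOf b1 := ⟨_, rfl⟩
  have hon : o ∣ n := by
    rw [ho]
    exact orderOf_dvd_of_pow_eq_one hb1n
  have ho0 : 0 < o := Nat.pos_of_dvd_of_pos hon hn
  have ho1 : o ≠ 1 := by
    rw [ho]
    intro h1
    exact hb11 (orderOf_eq_one_iff.1 h1)
  obtain ⟨ℓ, hℓ, q, hq⟩ := Nat.exists_prime_and_dvd ho1
  have hℓn : ℓ ∣ n := (Dvd.intro q hq.symm).trans hon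
  have hq0 : 0 < q := by
    rcases Nat.eq_zero_or_pos q with h1 | h1
    · rw [h1, mul_zero] at hq
      omega
    · exact h1
  obtain ⟨b, hbdef⟩ : ∃ b, b = b1 ^ q := ⟨_, rfl⟩
  have hbℓ : b ^ ℓ = 1 := by
    rw [hbdef, ← pow_mul, mul_comm, ← hq, ho, pow_orderOf_eq_one]
  have hbne : b ≠ 1 := by
    rw [hbdef]
    refine pow_ne_one_of_lt_orderOf hq0.ne' ?_
    rw [← ho, hq]
    have := hℓ.two_le
    nlinarith
  have hbH : b ∈ HH := by
    rw [hbdef]
    exact HH.pow_mem hb1H q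
  have hbr : ∀ x : N, (x : U) = r → b x ≠ x := by
    intro x hx h1
    rw [hbdef, hb1pr q x hx] at h1
    have hx0 : x ≠ 0 := by
      rintro rfl
      exact hr0 hx.symm
    have h2 : algebraMap E N (ζ ^ q) = 1 := by
      apply mul_right_cancel₀ hx0
      rw [one_mul]
      exact h1
    have h3 : ζ ^ q = 1 := (algebraMap E N).injective (h2.trans (map_one _).symm)
    apply hbne
    rw [hbdef]
    exact hb1M q h3
  obtain ⟨Q, hQ⟩ : ∃ P : Place E N, ∀ x ∈ P.ring, b x ∈ P.ring := by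
    rw [hbdef] at hbℓ hbne ⊢
    exact hprime1 q ℓ hℓ hbℓ hbne
  have hKK := fun Q Q' => hZ4 ℓ hℓ N hN0N (fun z hz => hZN z (hZZ' (Finset.mem_union_right _
    (Finset.mem_biUnion.2 ⟨ℓ, Nat.mem_primeFactors.2 ⟨hℓ, hℓn, hn.ne'⟩, hz⟩)))) hff b
    hbH hbℓ hbr Q Q'
  have hQpow : ∀ m : ℕ, ∀ x ∈ Q.ring, (b ^ m) x ∈ Q.ring := by
    intro m
    induction m with
    | zero => exact fun x hx => hx
    | succ m ih =>
      intro x hx
      rw [pow_succ, AlgEquiv.mul_apply]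
      exact ih _ (hQ x hx)
  have hL0N : L0 E K0 (U := U) ≤ N := by
    rw [hN]
    exact adjoin.mono E _ _ (Set.subset_union_left)
  refine ⟨Place.comap geo.ff hff (IntermediateField.inclusion hL0N) Q,
    Place.comap hff0 hff (IntermediateField.inclusion hN0N) Q, ?_, ?_, ?_, ?_⟩
  · intro x hx hx'
    exact Iff.rfl
  · -- the Frobenius element
    obtain ⟨b2, hb2⟩ : ∃ b2, b2 = conj29 N Φ hΦN hΦ.const F b1 := ⟨_, rfl⟩
    have hb2H : b2 ∈ HH := by
      rw [hb2]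
      exact hconj F b1 hb1H
    have hb2a : ∀ x : N, b2 x = res29 N Φ hΦN F (b1 ((res29 N Φ hΦN F).symm x)) := fun x => by
      rw [hb2]
      rfl
    obtain ⟨L, hL1, hL2⟩ := exists_cont29 hΦ.cont Z'
    obtain ⟨a, j, ha, hj⟩ := hdec.tame F τ₁ hdec.frob.stable hτ₁ L hL1 n hn.ne'
    -- `a` is prime to `n`
    have haℓ : Nat.Coprime a ℓ := by
      rw [Nat.coprime_comm, Nat.Prime.coprime_iff_not_dvd hℓ]
      rintro ⟨t, rfl⟩
      have h1 : (ζ ^ q) ^ ℓ = 1 := by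
        rw [← pow_mul, mul_comm, ← hq]
        exact hb1M' o (by rw [ho, pow_orderOf_eq_one])
      have h2 : (ζ ^ q) ^ n = 1 := by rw [← pow_mul, mul_comm, pow_mul, hζn, one_pow]
      have h3 := ha (ζ ^ q) h2
      rw [pow_mul, h1, one_pow] at h3
      have h4 : ζ ^ q = 1 := F.injective (h3.trans (map_one F).symm)
      apply hbne
      rw [hbdef]
      exact hb1M q h4
    obtain ⟨W, hW⟩ : ∃ W : U ≃+* U, W = (Φ τ₁ ^ a)⁻¹ * (Φ F * Φ τ₁ * (Φ F)⁻¹) := ⟨_, rfl⟩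
    have hWΦ : W = Φ ((τ₁ ^ a)⁻¹ * (F * τ₁ * F⁻¹)) := by
      rw [hW, map_mul, map_inv, map_pow, map_mul, map_mul, map_inv]
    let w : N ≃ₐ[E] N := (b1 ^ a)⁻¹ * b2
    have hwH : w ∈ HH := HH.mul_mem (HH.inv_mem (HH.pow_mem hb1H a)) hb2H
    have hsymm : ∀ x : N, (((res29 N Φ hΦN F).symm x : N) : U) = Φ F⁻¹ x := fun x => rfl
    have hb2Z : ∀ x : N, (x : U) ∈ Z' → ((b2 x : N) : U) ∈ Z' := by
      intro x hx
      have h1 : (((res29 N Φ hΦN F).symm x : N) : U) ∈ Z' := by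
        rw [hsymm]
        exact hst' F⁻¹ _ hx
      rw [hb2a]
      change Φ F ((b1 ((res29 N Φ hΦN F).symm x) : N) : U) ∈ Z'
      rw [← hb1 _ h1]
      exact hst' F _ (hst' τ₁ _ h1)
    -- `(b1 ^ a)⁻¹` is a power of `b1`
    obtain ⟨a', ha'⟩ : ∃ a' : ℕ, (b1 ^ a)⁻¹ = b1 ^ a' := by
      refine ⟨(n - 1) * a, ?_⟩
      rw [inv_eq_iff_mul_eq_one, ← pow_add]
      have h1 : a + (n - 1) * a = n * a := by
        obtain ⟨n', rfl⟩ : ∃ n', n = n' + 1 := ⟨n - 1, by omega⟩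
        rw [Nat.add_sub_cancel]
        ring
      rw [h1, pow_mul, hb1n, one_pow]
    have hwZ : ∀ x : N, (x : U) ∈ Z' → ((w x : N) : U) ∈ Z' := by
      intro x hx
      change ((((b1 ^ a)⁻¹ : N ≃ₐ[E] N) (b2 x) : N) : U) ∈ Z'
      rw [ha', ← hpow1 a' _ (hb2Z x hx)]
      rw [← map_pow]
      exact hst' _ _ (hb2Z x hx)
    have hWw : ∀ x : N, (x : U) ∈ Z' → W (x : U) = ((w x : N) : U) := by
      intro x hx
      have h1 : (((res29 N Φ hΦN F).symm x : N) : U) ∈ Z' := by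
        rw [hsymm]
        exact hst' F⁻¹ _ hx
      have h2 : (Φ F * Φ τ₁ * (Φ F)⁻¹) (x : U) = ((b2 x : N) : U) := by
        rw [hb2a]
        change Φ F (Φ τ₁ ((Φ F)⁻¹ (x : U))) = Φ F ((b1 ((res29 N Φ hΦN F).symm x) : N) : U)
        rw [← map_inv, ← hsymm, hb1 _ h1]
      have h3 : (Φ τ₁ ^ a) ((w x : N) : U) = ((b2 x : N) : U) := by
        rw [hpow1 a _ (hwZ x hx)]
        change (((b1 ^ a) ((b1 ^ a)⁻¹ (b2 x)) : N) : U) = _
        rw [← AlgEquiv.mul_apply, mul_inv_cancel]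
        rfl
      rw [hW]
      change (Φ τ₁ ^ a)⁻¹ ((Φ F * Φ τ₁ * (Φ F)⁻¹) (x : U)) = _
      rw [h2, ← h3]
      exact (Φ τ₁ ^ a).symm_apply_apply _
    have hWwn : ∀ (n : ℕ) (x : N), (x : U) ∈ Z' → (W ^ n) (x : U) = (((w ^ n) x : N) : U) := by
      intro n
      induction n with
      | zero => intro x _; rfl
      | succ n ih =>
        intro x hx
        have h1 : (W ^ (n + 1)) (x : U) = (W ^ n) (W (x : U)) := by
          rw [pow_succ]
          rfl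
        rw [h1, hWw x hx, ih _ (hwZ x hx), pow_succ w]
        rfl
    have hw1 : w ^ p ^ j = 1 := by
      refine uniq29 hN (HH.pow_mem hwH _) HH.one_mem fun x hx => ?_
      apply Subtype.ext
      rw [← hWwn _ x hx, hWΦ, ← map_pow]
      exact hL2 _ hj _ hx
    have hpc : ¬ p ∣ Nat.card HH := by
      rintro ⟨q, hq⟩
      have h1 := hS (Nat.card HH : E) (Finset.mem_insert_self _ _)
      rw [hq, Nat.cast_mul, map_mul] at h1
      have h2 : O.valuation (q : E) ≤ 1 := by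
        rw [O.valuation_le_one_iff]
        exact natCast_mem O q
      have h3 := mul_lt_one_of_lt_of_le hdec.frob.residue h2
      rw [h1] at h3
      exact lt_irrefl _ h3
    have hw2 : (⟨w, hwH⟩ : HH) = 1 := by
      rw [← orderOf_eq_one_iff]
      have h1 : orderOf (⟨w, hwH⟩ : HH) ∣ p ^ j := by
        apply orderOf_dvd_of_pow_eq_one
        apply Subtype.ext
        exact hw1
      have h2 : orderOf (⟨w, hwH⟩ : HH) ∣ Nat.card HH := orderOf_dvd_natCard _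
      have h3 : Nat.Coprime (p ^ j) (Nat.card HH) :=
        Nat.Coprime.pow_left _ ((Nat.Prime.coprime_iff_not_dvd hdec.frob.prime).2 hpc)
      exact Nat.eq_one_of_dvd_coprimes h3 h1 h2
    have hw3 : w = 1 := congrArg Subtype.val hw2
    have hb21 : b2 = b1 ^ a := by
      have h4 : (b1 ^ a)⁻¹ * b2 = 1 := hw3
      exact (inv_mul_eq_one.1 h4).symm
    -- the inverse of `a` modulo `ℓ`
    obtain ⟨t, ht⟩ : ∃ t : ℕ, a * t ≡ 1 [MOD ℓ] := by
      obtain ⟨t, -, ht⟩ := Nat.exists_mul_mod_eq_one_of_coprime haℓ hℓ.one_lt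
      refine ⟨t, ?_⟩
      rw [Nat.ModEq, ht, Nat.mod_eq_of_lt hℓ.one_lt]
    refine movesL29 hff0 hff hN0N hΦN hΦ.const hKK hQ (b' := b ^ t) (hQpow t) F ?_
    rw [conj_pow29, hbdef, conj_pow29, ← hb2, hb21, ← hbdef]
    have h5 : ((b1 ^ a) ^ q) ^ t = b ^ (a * t) := by
      rw [hbdef, ← pow_mul, ← pow_mul, ← pow_mul]
      congr 1
      ring
    rw [h5]
    have h6 : b ^ (a * t) = b ^ 1 := by
      rw [pow_eq_pow_iff_modEq]
      have hfact : Fact ℓ.Prime := ⟨hℓ⟩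
      have h7 : orderOf b = ℓ := orderOf_eq_prime hbℓ hbne
      rw [h7]
      exact ht
    rw [h6, pow_one]
  · -- the inertia elements
    intro τ hτ
    refine movesL29 hff0 hff hN0N hΦN hΦ.const hKK hQ (b' := b) hQ τ ?_
    obtain ⟨i, -, hi⟩ := hall τ hτ
    have hcb : ∀ y : N, (b1 ^ i) (b1 y) = b1 ((b1 ^ i) y) := by
      intro y
      rw [← AlgEquiv.mul_apply, ← AlgEquiv.mul_apply, ← pow_succ, ← pow_succ']
    have h0 : conj29 N Φ hΦN hΦ.const τ b1 = b1 := by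
      refine uniq29 hN (hconj τ b1 hb1H) hb1H fun x hx => ?_
      change res29 N Φ hΦN τ (b1 ((res29 N Φ hΦN τ).symm x)) = b1 x
      have h1 : (((res29 N Φ hΦN τ).symm x : N) : U) ∈ Z' := hst' τ⁻¹ _ hx
      have h2 : ((b1 ((res29 N Φ hΦN τ).symm x) : N) : U) ∈ Z' := by
        rw [← hb1 _ h1]
        exact hst' τ₁ _ h1
      apply Subtype.ext
      change Φ τ ((b1 ((res29 N Φ hΦN τ).symm x) : N) : U) = _
      rw [hi _ h2, hcb]
      congr 2
      apply Subtype.ext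
      rw [← hi _ h1]
      exact congrArg Subtype.val ((res29 N Φ hΦN τ).apply_symm_apply x)
    rw [hbdef, conj_pow29, h0]
  · -- the grading
    intro dd hdd hord hramd
    have hdd0 : 0 < dd := Nat.pos_of_dvd_of_pos hdd hn
    obtain ⟨τ₀, hτ₀, hτ₀d⟩ := hdec.ram dd c hdd0 hramd (d ^ (n / dd)) (by
      rw [← pow_mul, Nat.div_mul_cancel hdd, hd])
    obtain ⟨i, hi⟩ := hgen τ₀ hτ₀
    have hcomm : b1 * b = b * b1 := by
      rw [hbdef, ← pow_succ', ← pow_succ]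
    have h1 := grading29 hn geo.rpow hr0 geo.ff hff hL0N hMN hb1H hb1r (Q := Q)
      (fun x hx => fixplace29 (N0 := N0) hKK hQ hcomm x (hMN0 hx)) hdd hord
    apply hτ₀d
    have h2 := congrArg (fun y : E => y ^ (n / dd)) hi
    simp only [mul_pow] at h2
    rw [← pow_mul, mul_comm i, pow_mul, h1, one_pow, one_mul] at h2
    rw [map_pow]
    exact h2

end

end Pool.Agent.ML
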